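import Pool.Agent.Helper27.KS.GoalsF

/-!
# The tail of the difference of two positions (TLR)
-/

namespace Pool.Agent.Helper33.KS

open MeasureTheory Filter Topology Finset
open Pool.Agent.Helper44.KS Pool.Agent.Helper75.KS Pool.Agent.Helper27.KS
open Pool.Agent.Helper89.GP

noncomputable section

variable {n : ℕ} {R : Fin n → Fin n → Prop}

theorem gp_eq (x q : Fin n) : gp R x q = hh R q - hh R x := by
  unfold gp hh df
  rw [Ex_sub]

/-- The mean deviation of the difference. -/
theorem Ex_df_sub (x q : Fin n) :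
    Ex R (fun σ => |df σ x q - gp R x q|) ≤ dev R x + dev R q := by
  unfold dev
  rw [← Ex_add]
  apply Ex_mono
  intro σ _
  rw [gp_eq]
  unfold df
  have h : (po σ q : ℝ) - po σ x - (hh R q - hh R x) =
      -((po σ x : ℝ) - hh R x) + ((po σ q : ℝ) - hh R q) := by ring
  rw [h]
  refine (abs_add_le _ _).trans ?_
  rw [abs_neg]

theorem Ex_abs_df (hne : (LX R).Nonempty) (x q : Fin n) :
    Ex R (fun σ => |df σ x q|) ≤ |gp R x q| + (dev R x + dev R q) := by
  have h1 : Ex R (fun σ => |df σ x q|) ≤
      Ex R (fun σ => |gp R x q| + |df σ x q - gp R x q|) := by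
    apply Ex_mono
    intro σ _
    have h := abs_add_le (gp R x q) (df σ x q - gp R x q)
    rwa [add_sub_cancel] at h
  rw [Ex_add, Ex_const hne] at h1
  linarith [Ex_df_sub (R := R) x q]

theorem Pr_compl (hne : (LX R).Nonempty) {x q : Fin n} (h : q ≠ x) :
    1 - (Pr R fun σ => po σ q < po σ x) = Pr R fun σ => po σ x < po σ q := by
  have h1 : Pr R (fun _ => True) =
      Pr R (fun σ => po σ q < po σ x) + Pr R (fun σ => po σ x < po σ q) := by
    apply Pr_add
    · intro σ _
      exact ⟨fun _ => po_lt_or h, fun _ => trivial⟩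
    · intro σ _ h1 h2
      exact lt_asymm h1 h2
  rw [Pr_true hne] at h1
  linarith

/-- `2 ^ (-(r / 48))` decays faster than `r ^ (-6)`. -/
theorem two_rpow_le {r : ℝ} (hr : 0 < r) :
    (2 : ℝ) ^ (-(r / 48)) ≤ 720 * 96 ^ 6 / r ^ 6 := by
  have h1 : (2 : ℝ) ^ (-(r / 48)) ≤ Real.exp (-(r / 96)) := by
    rw [Real.rpow_def_of_pos (by norm_num : (0 : ℝ) < 2)]
    apply Real.exp_le_exp.2
    have h2 : (1 / 2 : ℝ) ≤ Real.log 2 := by
      have := Real.log_two_gt_d9
      linarith
    nlinarith
  refine h1.trans ?_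
  have h3 := Real.pow_div_factorial_le_exp (r / 96) (by positivity) 6
  have h4 : ((6 : ℕ).factorial : ℝ) = 720 := by norm_num [Nat.factorial]
  rw [h4, div_pow, div_div] at h3
  rw [Real.exp_neg, ← one_div, div_le_div_iff₀ (Real.exp_pos _) (by positivity)]
  have h5 : r ^ 6 ≤ Real.exp (r / 96) * (96 ^ 6 * 720) := by
    rwa [div_le_iff₀ (by positivity)] at h3
  linarith

theorem tlr (hGIN : GinStmt) (hNOI : NoiStmt) (hLCN : LcnStmt) (hLTA : LtaStmt) : TlrStmt := by
  refine ⟨2 * (720 * 96 ^ 6) * 27, by norm_num, ?_⟩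
  intro n R x q S hne hqx hS hdx hdq
  set a : ℝ := gp R x q with ha
  set π : ℝ := Pr R fun σ => po σ q < po σ x with hπ
  have hπ0 : 0 ≤ π := Pr_nonneg _
  have hπ1 : π ≤ 1 := Pr_le_one _
  have hS0 : 0 < S := by linarith
  set α : ℝ := |a| / S with hα
  have hα0 : 0 ≤ α := by positivity
  have haS : |a| = α * S := by
    rw [hα]; field_simp
  rw [le_div_iff₀ (by positivity)]
  have hpp : 0 ≤ π * (1 - π) := mul_nonneg hπ0 (by linarith)
  have hpp1 : π * (1 - π) ≤ 1 := by nlinarith
  rcases lt_or_ge α 2 with h2 | h2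
  · have h3 : (1 + α) ^ 3 ≤ 27 := by
      have : (1 + α) ^ 3 ≤ 3 ^ 3 := by
        apply pow_le_pow_left₀ (by linarith)
        linarith
      linarith
    calc π * (1 - π) * (1 + α) ^ 3 ≤ 1 * 27 := by
          apply mul_le_mul hpp1 h3 (by positivity) (by norm_num)
      _ ≤ _ := by norm_num
  · -- the main case
    obtain ⟨-, -, hprob, hneg, hpos⟩ := hGIN n R x q hne hqx.symm
    obtain ⟨hint, hmea, hb⟩ := hNOI n R x q hne hqx.symm
    have hlcr := hLCN n R x q hne hqx.symm
    set r : ℝ := √α with hr
    have hr2 : r ^ 2 = α := Real.sq_sqrt hα0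
    have hrpos : 0 < r := Real.sqrt_pos.2 (by linarith)
    -- the mean deviation
    have hM : mdv (nu R x q) ≤ S * (4 * r) := by
      have h4 := (abs_le.1 (hb a)).2
      have h5 : mdv (nu R x q) = ∫ t, |t - a| ∂(nu R x q) := by
        unfold mdv
        rw [hmea]
      have h6 : Ex R (fun σ => |df σ x q - a|) ≤ 2 * S := by
        have := Ex_df_sub (R := R) x q
        linarith
      have h7 : Ex R (fun σ => |df σ x q|) ≤ S ^ 2 * (2 * α) := by
        have h8 := Ex_abs_df hne x q
        have h9 : |gp R x q| = α * S := haS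
        have h10 : Ex R (fun σ => |df σ x q|) ≤ S * (α + 2) := by nlinarith
        have h11 : S * (α + 2) ≤ S * (2 * α) := by
          apply mul_le_mul_of_nonneg_left _ hS0.le
          linarith
        have h12 : S * (2 * α) ≤ S ^ 2 * (2 * α) := by
          apply mul_le_mul_of_nonneg_right _ (by positivity)
          nlinarith
        linarith
      have h8 : √(Ex R fun σ => |df σ x q|) ≤ S * (2 * r) := by
        apply Real.sqrt_le_iff.2
        refine ⟨by positivity, h7.trans ?_⟩
        rw [← hr2]
        nlinarith [mul_nonneg (sq_nonneg S) (sq_nonneg r)]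
      have h9 : (2 : ℝ) ≤ 2 * r := by
        have : 1 ≤ r := by
          rw [hr, Real.one_le_sqrt]
          linarith
        linarith
      have h10 : 2 * S ≤ S * (2 * r) := by nlinarith
      rw [h5]
      linarith
    have hM2 : r / 8 * mdv (nu R x q) < |a| := by
      have h4 : r / 8 * mdv (nu R x q) ≤ r / 8 * (S * (4 * r)) :=
        mul_le_mul_of_nonneg_left hM (by positivity)
      have h5 : r / 8 * (S * (4 * r)) = α * S / 2 := by
        rw [← hr2]; ring
      rw [haS]
      have h6 : 0 < α * S := by positivity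
      linarith
    have hT := hLTA (nu R x q) hlcr hint (r / 8) (by positivity)
    rw [hmea] at hT
    have hT2 : (2 : ℝ) ^ (-(r / 8 / 6)) ≤ 720 * 96 ^ 6 / r ^ 6 := by
      have h4 : r / 8 / 6 = r / 48 := by ring
      rw [h4]
      exact two_rpow_le hrpos
    have key : π * (1 - π) ≤ 2 * (720 * 96 ^ 6 / r ^ 6) := by
      refine le_trans ?_ (hT.trans (by linarith))
      rcases lt_trichotomy a 0 with h0 | h0 | h0
      · -- `a < 0`
        have h4 : 1 - π ≤ (nu R x q).real
            {u | r / 8 * mdv (nu R x q) < |u - gp R x q|} := by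
          rw [hπ, Pr_compl hne hqx, ← hpos]
          apply measureReal_mono _ (measure_ne_top _ _)
          intro t ht
          have ht' : 0 < t := ht
          change r / 8 * mdv (nu R x q) < |t - a|
          refine hM2.trans ?_
          rw [abs_of_neg h0, abs_of_pos (by linarith)]
          linarith
        have h5 : π * (1 - π) ≤ 1 - π := by nlinarith
        exact h5.trans h4
      · exfalso
        rw [h0, abs_zero] at haS
        have : 0 < α * S := by positivity
        linarith
      · have h4 : π ≤ (nu R x q).real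
            {u | r / 8 * mdv (nu R x q) < |u - gp R x q|} := by
          rw [hπ, ← hneg]
          apply measureReal_mono _ (measure_ne_top _ _)
          intro t ht
          have ht' : t < 0 := ht
          change r / 8 * mdv (nu R x q) < |t - a|
          refine hM2.trans ?_
          rw [abs_of_pos h0, abs_of_neg (by linarith)]
          linarith
        have h5 : π * (1 - π) ≤ π := by nlinarith
        exact h5.trans h4
    have h6 : (1 + α) ^ 3 ≤ 27 / 8 * r ^ 6 := by
      have h7 : r ^ 6 = α ^ 3 := by rw [← hr2]; ring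
      rw [h7]
      have h8 : (1 + α) ^ 3 ≤ (3 / 2 * α) ^ 3 := by
        apply pow_le_pow_left₀ (by linarith)
        linarith
      refine h8.trans (le_of_eq ?_)
      ring
    calc π * (1 - π) * (1 + α) ^ 3 ≤ 2 * (720 * 96 ^ 6 / r ^ 6) * (27 / 8 * r ^ 6) := by
          apply mul_le_mul key h6 (by positivity) (by positivity)
      _ = 2 * (720 * 96 ^ 6) * (27 / 8) := by field_simp
      _ ≤ _ := by norm_num

end

end Pool.Agent.Helper33.KS
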