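import Pool.Agent.Helper42.KS.Goals

/-!
# MP_40ec72_an, packet WEYL: the inverse form of Weyl's inequality
-/

set_option autoImplicit false

namespace Pool.Agent.Helper42.KS.PkWEYL

open Finset

theorem abs_round_neg (t : ℝ) : |(-t) - round (-t)| = |t - round t| := by
  apply le_antisymm
  · have h := round_le (-t) (-(round t))
    have e : |(-t) - ((-(round t) : ℤ) : ℝ)| = |t - round t| := by
      rw [← abs_neg]; congr 1; push_cast; ring
    rw [e] at h; exact h
  · have h := round_le t (-(round (-t)))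
    have e : |t - ((-(round (-t)) : ℤ) : ℝ)| = |(-t) - round (-t)| := by
      rw [← abs_neg]; congr 1; push_cast; ring
    rw [e] at h; exact h

theorem mn_neg (R t : ℝ) : mn R (-t) = mn R t := by
  unfold mn; rw [abs_round_neg]

theorem mn_nonneg {R : ℝ} (hR : 0 ≤ R) (t : ℝ) : 0 ≤ mn R t := by
  unfold mn; split_ifs
  · exact hR
  · positivity

theorem mn_le {R : ℝ} (hR : 0 < R) (t : ℝ) : mn R t ≤ R := by
  unfold mn; split_ifs with h
  · exact le_rfl
  · push Not at h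
    have h1 : 0 < 2 * |t - round t| := by
      by_contra h2
      push Not at h2
      have : 2 * |t - round t| * R ≤ 0 := mul_nonpos_of_nonpos_of_nonneg h2 hR.le
      linarith
    rw [div_le_iff₀ h1]
    linarith

theorem card_zero (m : ℕ) (S : Finset ℤ) :
    ((Fintype.piFinset (fun _ : Fin m => S)).filter (fun h => ∃ i, h i = 0)).card ≤
      m * S.card ^ (m - 1) := by
  classical
  have h1 : (Fintype.piFinset (fun _ : Fin m => S)).filter (fun h => ∃ i, h i = 0) ⊆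
      (Finset.univ : Finset (Fin m)).biUnion
        (fun i => Fintype.piFinset (fun j : Fin m => if j = i then ({0} : Finset ℤ) else S)) := by
    intro h hh
    rw [Finset.mem_filter, Fintype.mem_piFinset] at hh
    obtain ⟨h2, i, hi⟩ := hh
    rw [Finset.mem_biUnion]
    refine ⟨i, Finset.mem_univ _, ?_⟩
    rw [Fintype.mem_piFinset]
    intro j
    by_cases hj : j = i
    · rw [if_pos hj, hj, hi]; exact Finset.mem_singleton_self _
    · rw [if_neg hj]; exact h2 j
  refine (Finset.card_le_card h1).trans (Finset.card_biUnion_le.trans ?_)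
  have h3 : ∀ i : Fin m, (Fintype.piFinset
      (fun j : Fin m => if j = i then ({0} : Finset ℤ) else S)).card = S.card ^ (m - 1) := by
    intro i
    rw [Fintype.card_piFinset]
    have h4 : ∀ j : Fin m, (if j = i then ({0} : Finset ℤ) else S).card =
        if j = i then 1 else S.card := by
      intro j; split_ifs <;> simp
    rw [Finset.prod_congr rfl (fun j _ => h4 j), Finset.prod_ite, Finset.prod_const_one, one_mul,
      Finset.prod_const, Finset.filter_ne', Finset.card_erase_of_mem (Finset.mem_univ _),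
      Finset.card_univ, Fintype.card_fin]
  rw [Finset.sum_congr rfl (fun i _ => h3 i)]
  simp

theorem card_fib (m R z : ℕ) (hz : 1 ≤ z) :
    ((Fintype.piFinset (fun _ : Fin m => Finset.Ioo (-(R : ℤ)) R)).filter
      (fun h => (∀ i, h i ≠ 0) ∧ (∏ i, h i).natAbs = z)).card ≤
      2 ^ m * ((Fintype.piFinset (fun _ : Fin m => Finset.Icc 1 z)).filter
        (fun h => ∏ i, h i = z)).card := by
  classical
  apply Finset.card_le_mul_card_image_of_maps_to (f := fun (h : Fin m → ℤ) (i : Fin m) =>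
    (h i).natAbs)
  · intro h hh
    rw [Finset.mem_filter] at hh
    obtain ⟨-, h1, h2⟩ := hh
    have h3 : ∏ i, (h i).natAbs = z := by
      rw [← h2]; exact (map_prod Int.natAbsHom h Finset.univ).symm
    rw [Finset.mem_filter, Fintype.mem_piFinset]
    refine ⟨fun i => ?_, h3⟩
    rw [Finset.mem_Icc]
    refine ⟨Nat.one_le_iff_ne_zero.mpr (Int.natAbs_ne_zero.mpr (h1 i)), ?_⟩
    apply Nat.le_of_dvd hz
    rw [← h3]
    exact Finset.dvd_prod_of_mem (fun i => (h i).natAbs) (Finset.mem_univ i)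
  · intro g _
    have h1 : (((Fintype.piFinset (fun _ : Fin m => Finset.Ioo (-(R : ℤ)) R)).filter
      (fun h => (∀ i, h i ≠ 0) ∧ (∏ i, h i).natAbs = z)).filter
        (fun h => (fun i => (h i).natAbs) = g)) ⊆
        Fintype.piFinset (fun i : Fin m => ({(g i : ℤ), -(g i : ℤ)} : Finset ℤ)) := by
      intro h hh
      rw [Finset.mem_filter] at hh
      rw [Fintype.mem_piFinset]
      intro i
      have h2 : (h i).natAbs = g i := congrFun hh.2 i
      rw [← h2, Finset.mem_insert, Finset.mem_singleton]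
      exact Int.natAbs_eq (h i)
    refine (Finset.card_le_card h1).trans ?_
    rw [Fintype.card_piFinset]
    calc ∏ i : Fin m, ({(g i : ℤ), -(g i : ℤ)} : Finset ℤ).card ≤ ∏ _i : Fin m, 2 := by
          apply Finset.prod_le_prod'
          intro i _
          exact Finset.card_le_two
      _ = 2 ^ m := by simp

theorem comb (n R : ℕ) (hn : 2 ≤ n) (hR : 1 ≤ R) (c D : ℝ)
    (hD : ∀ z : ℕ, 1 ≤ z → z ≤ R ^ (n - 1) →
      (((Fintype.piFinset (fun _ : Fin (n - 1) => Finset.Icc 1 z)).filter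
        (fun h => ∏ i, h i = z)).card : ℝ) ≤ D) :
    ∑ h ∈ Fintype.piFinset (fun _ : Fin (n - 1) => Finset.Ioo (-(R : ℤ)) R),
          mn R (n.factorial * c * ∏ i, (h i : ℝ)) ≤
      ((n - 1 : ℕ) : ℝ) * (2 * R : ℝ) ^ (n - 2) * R + 2 ^ (n - 1) * D *
        ∑ z ∈ Finset.Icc 1 (n.factorial * R ^ (n - 1)), mn R (c * z) := by
  classical
  have hR0 : (0 : ℝ) < R := by exact_mod_cast hR
  set m := n - 1 with hm
  have hm2 : n - 2 = m - 1 := by omega
  set Ω := Fintype.piFinset (fun _ : Fin m => Finset.Ioo (-(R : ℤ)) R) with hΩ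
  rw [← Finset.sum_filter_add_sum_filter_not Ω (fun h => ∃ i, h i = 0)]
  have hA : ∑ h ∈ Ω.filter (fun h => ∃ i, h i = 0), mn R (n.factorial * c * ∏ i, (h i : ℝ)) ≤
      ((m : ℕ) : ℝ) * (2 * R : ℝ) ^ (n - 2) * R := by
    calc ∑ h ∈ Ω.filter (fun h => ∃ i, h i = 0), mn R (n.factorial * c * ∏ i, (h i : ℝ))
        ≤ ∑ h ∈ Ω.filter (fun h => ∃ i, h i = 0), (R : ℝ) :=
          Finset.sum_le_sum (fun h _ => mn_le hR0 _)
      _ = ((Ω.filter (fun h => ∃ i, h i = 0)).card : ℝ) * R := by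
          rw [Finset.sum_const, nsmul_eq_mul]
      _ ≤ (((m * (Finset.Ioo (-(R : ℤ)) R).card ^ (m - 1) : ℕ)) : ℝ) * R := by
          apply mul_le_mul_of_nonneg_right _ hR0.le
          exact_mod_cast card_zero m (Finset.Ioo (-(R : ℤ)) R)
      _ ≤ ((m : ℕ) : ℝ) * (2 * R : ℝ) ^ (n - 2) * R := by
          apply mul_le_mul_of_nonneg_right _ hR0.le
          push_cast
          apply mul_le_mul_of_nonneg_left _ (Nat.cast_nonneg _)
          rw [hm2]
          apply pow_le_pow_left₀ (Nat.cast_nonneg _)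
          rw [Int.card_Ioo]
          have h5 : (((R : ℤ) - (-(R : ℤ)) - 1).toNat : ℤ) = 2 * R - 1 := by
            rw [Int.toNat_of_nonneg (by omega)]; ring
          have h6 : ((((R : ℤ) - (-(R : ℤ)) - 1).toNat : ℤ) : ℝ) = 2 * R - 1 := by
            rw [h5]; push_cast; ring
          rw [Int.cast_natCast] at h6
          rw [h6]; linarith
  have hB : ∑ h ∈ Ω.filter (fun h => ¬ ∃ i, h i = 0), mn R (n.factorial * c * ∏ i, (h i : ℝ)) ≤
      2 ^ m * D * ∑ z ∈ Finset.Icc 1 (n.factorial * R ^ m), mn R (c * z) := by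
    have e1 : ∀ h : Fin m → ℤ, mn R (n.factorial * c * ∏ i, (h i : ℝ)) =
        mn R (n.factorial * c * ((∏ i, h i).natAbs : ℝ)) := by
      intro h
      have e2 : (∏ i, (h i : ℝ)) = ((∏ i, h i : ℤ) : ℝ) := by push_cast; rfl
      rw [e2]
      rcases Int.natAbs_eq (∏ i, h i) with h3 | h3
      · have h4 : ((∏ i, h i : ℤ) : ℝ) = ((∏ i, h i).natAbs : ℝ) := by
          conv_lhs => rw [h3]
          rw [Int.cast_natCast]
        rw [h4]
      · have h4 : ((∏ i, h i : ℤ) : ℝ) = -((∏ i, h i).natAbs : ℝ) := by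
          conv_lhs => rw [h3]
          rw [Int.cast_neg, Int.cast_natCast]
        rw [h4, mul_neg, mn_neg]
    rw [Finset.sum_congr rfl (fun h _ => e1 h)]
    have hmaps : ∀ h ∈ Ω.filter (fun h => ¬ ∃ i, h i = 0),
        (∏ i, h i).natAbs ∈ Finset.Icc 1 (R ^ m) := by
      intro h hh
      rw [Finset.mem_filter, hΩ, Fintype.mem_piFinset] at hh
      obtain ⟨h1, h2⟩ := hh
      push Not at h2
      rw [Finset.mem_Icc]
      refine ⟨Nat.one_le_iff_ne_zero.mpr (Int.natAbs_ne_zero.mpr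
        (Finset.prod_ne_zero_iff.mpr (fun i _ => h2 i))), ?_⟩
      have h4 : (∏ i, h i).natAbs = ∏ i, (h i).natAbs := map_prod Int.natAbsHom h Finset.univ
      rw [h4]
      calc ∏ i, (h i).natAbs ≤ ∏ _i : Fin m, R := by
            apply Finset.prod_le_prod'
            intro i _
            have h3 := h1 i
            rw [Finset.mem_Ioo] at h3
            omega
        _ = R ^ m := by simp
    rw [← Finset.sum_fiberwise_of_maps_to hmaps]
    have e3 : ∀ z ∈ Finset.Icc 1 (R ^ m), ∑ h ∈ (Ω.filter (fun h => ¬ ∃ i, h i = 0)).filter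
        (fun h => (∏ i, h i).natAbs = z), mn R (n.factorial * c * ((∏ i, h i).natAbs : ℝ)) ≤
        2 ^ m * D * mn R (n.factorial * c * (z : ℝ)) := by
      intro z hz
      rw [Finset.mem_Icc] at hz
      have e4 : ∑ h ∈ (Ω.filter (fun h => ¬ ∃ i, h i = 0)).filter
        (fun h => (∏ i, h i).natAbs = z), mn R (n.factorial * c * ((∏ i, h i).natAbs : ℝ)) =
        ∑ h ∈ (Ω.filter (fun h => ¬ ∃ i, h i = 0)).filter
        (fun h => (∏ i, h i).natAbs = z), mn R (n.factorial * c * (z : ℝ)) := by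
        apply Finset.sum_congr rfl
        intro h hh
        rw [Finset.mem_filter] at hh
        rw [hh.2]
      rw [e4, Finset.sum_const, nsmul_eq_mul]
      apply mul_le_mul_of_nonneg_right _ (mn_nonneg hR0.le _)
      have e5 : (Ω.filter (fun h => ¬ ∃ i, h i = 0)).filter (fun h => (∏ i, h i).natAbs = z) =
          Ω.filter (fun h => (∀ i, h i ≠ 0) ∧ (∏ i, h i).natAbs = z) := by
        rw [Finset.filter_filter]
        apply Finset.filter_congr
        intro h _
        push Not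
        rfl
      rw [e5]
      calc ((Ω.filter (fun h => (∀ i, h i ≠ 0) ∧ (∏ i, h i).natAbs = z)).card : ℝ)
          ≤ ((2 ^ m * ((Fintype.piFinset (fun _ : Fin m => Finset.Icc 1 z)).filter
              (fun h => ∏ i, h i = z)).card : ℕ) : ℝ) := by
            exact_mod_cast card_fib m R z hz.1
        _ ≤ 2 ^ m * D := by
            push_cast
            exact mul_le_mul_of_nonneg_left (hD z hz.1 hz.2) (by positivity)
    refine (Finset.sum_le_sum e3).trans ?_
    rw [← Finset.mul_sum]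
    have hD0 : 0 ≤ D := by
      refine le_trans (Nat.cast_nonneg _) (hD 1 le_rfl (Nat.one_le_pow _ _ hR))
    apply mul_le_mul_of_nonneg_left _ (by positivity)
    have hfac : 0 < n.factorial := Nat.factorial_pos n
    have e6 : ∑ z ∈ Finset.Icc 1 (R ^ m), mn R (n.factorial * c * (z : ℝ)) =
        ∑ w ∈ (Finset.Icc 1 (R ^ m)).image (fun z => n.factorial * z), mn R (c * (w : ℝ)) := by
      rw [Finset.sum_image]
      · apply Finset.sum_congr rfl
        intro z _
        push_cast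
        congr 1; ring
      · intro a _ b _ hab
        exact Nat.eq_of_mul_eq_mul_left hfac hab
    rw [e6]
    apply Finset.sum_le_sum_of_subset_of_nonneg
    · intro w hw
      rw [Finset.mem_image] at hw
      obtain ⟨z, hz, rfl⟩ := hw
      rw [Finset.mem_Icc] at hz ⊢
      exact ⟨Nat.one_le_iff_ne_zero.mpr (Nat.mul_ne_zero hfac.ne' (by omega)),
        Nat.mul_le_mul_left _ hz.2⟩
    · intro w _ _
      exact mn_nonneg hR0.le _
  exact add_le_add hA hB


theorem mbound (n : ℕ) (R Q δ : ℝ) (hn : 2 ≤ n) (hR : 1 ≤ R) (hδ0 : 0 < δ) (hδ : 2 * δ ≤ 1)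
    (hQ1 : 1 ≤ Q) (hQ : R ^ (2 * δ) < Q) (hQ2 : Q ≤ R ^ ((n : ℝ) - 2 * δ)) :
    ((n.factorial : ℝ) * R ^ (n - 1) / Q + 1) * (R + Q * (1 + Real.log Q)) ≤
      (2 * n.factorial + 2) * (1 + n * Real.log R) * R ^ ((n : ℝ) - 2 * δ) := by
  have hR0 : 0 < R := by linarith
  have hQ0 : 0 < Q := by linarith
  have hn' : (2 : ℝ) ≤ n := by exact_mod_cast hn
  have hlR : 0 ≤ Real.log R := Real.log_nonneg hR
  have hlQ : 0 ≤ Real.log Q := Real.log_nonneg hQ1
  have hfac : (0 : ℝ) ≤ n.factorial := Nat.cast_nonneg _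
  set T := R ^ ((n : ℝ) - 2 * δ) with hT
  have hT0 : 0 < T := Real.rpow_pos_of_pos hR0 _
  set L := 1 + n * Real.log R with hL
  have hL1 : 1 ≤ L := by
    rw [hL]; have : 0 ≤ (n : ℝ) * Real.log R := by positivity
    linarith
  have hlogQ : 1 + Real.log Q ≤ L := by
    have h1 : Real.log Q ≤ ((n : ℝ) - 2 * δ) * Real.log R := by
      rw [← Real.log_rpow hR0]; exact Real.log_le_log hQ0 hQ2
    have h2 : ((n : ℝ) - 2 * δ) * Real.log R ≤ n * Real.log R :=
      mul_le_mul_of_nonneg_right (by linarith) hlR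
    rw [hL]; linarith
  have hpow : R ^ (n - 1) ≤ T := by
    rw [← Real.rpow_natCast, hT]
    apply Real.rpow_le_rpow_of_exponent_le hR
    rw [Nat.cast_sub (by omega)]; push_cast; linarith
  have hRT : R ≤ T := by
    calc R = R ^ (1 : ℝ) := (Real.rpow_one R).symm
      _ ≤ T := by
        rw [hT]; apply Real.rpow_le_rpow_of_exponent_le hR; linarith
  have hTL : T ≤ L * T := le_mul_of_one_le_left hT0.le hL1
  have t1 : (n.factorial : ℝ) * R ^ (n - 1) / Q * R ≤ n.factorial * (L * T) := by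
    have h1 : R ^ (n - 1) * R = T * R ^ (2 * δ) := by
      rw [← pow_succ, hT, ← Real.rpow_add hR0, ← Real.rpow_natCast]
      congr 1
      have : n - 1 + 1 = n := by omega
      rw [this]; ring
    have h2 : R ^ (n - 1) * R / Q ≤ T := by
      rw [h1, div_le_iff₀ hQ0]
      exact mul_le_mul_of_nonneg_left hQ.le hT0.le
    calc (n.factorial : ℝ) * R ^ (n - 1) / Q * R = n.factorial * (R ^ (n - 1) * R / Q) := by ring
      _ ≤ n.factorial * (L * T) := mul_le_mul_of_nonneg_left (h2.trans hTL) hfac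
  have t2 : (n.factorial : ℝ) * R ^ (n - 1) / Q * (Q * (1 + Real.log Q)) ≤
      n.factorial * (L * T) := by
    calc (n.factorial : ℝ) * R ^ (n - 1) / Q * (Q * (1 + Real.log Q))
        = n.factorial * ((1 + Real.log Q) * R ^ (n - 1)) := by field_simp
      _ ≤ n.factorial * (L * T) := by
        apply mul_le_mul_of_nonneg_left _ hfac
        exact mul_le_mul hlogQ hpow (by positivity) (by linarith)
  have t3 : Q * (1 + Real.log Q) ≤ L * T := by
    rw [mul_comm L T]
    exact mul_le_mul hQ2 hlogQ (by linarith) hT0.le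
  have e : ((n.factorial : ℝ) * R ^ (n - 1) / Q + 1) * (R + Q * (1 + Real.log Q)) =
      (n.factorial : ℝ) * R ^ (n - 1) / Q * R +
      (n.factorial : ℝ) * R ^ (n - 1) / Q * (Q * (1 + Real.log Q)) + R +
      Q * (1 + Real.log Q) := by ring
  rw [e]
  have e2 : (2 * (n.factorial : ℝ) + 2) * L * T = n.factorial * (L * T) + n.factorial * (L * T) +
      L * T + L * T := by ring
  rw [e2]
  linarith [hRT.trans hTL]

theorem ev (n : ℕ) (δ A₁ A₂ : ℝ) (hδ0 : 0 < δ) (hδ : 2 * δ ≤ 1) :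
    ∃ R₀ : ℕ, ∀ R : ℕ, R₀ ≤ R →
      A₁ * (R : ℝ) ^ (-(1 - δ)) + A₂ * ((1 + n * Real.log R) * (R : ℝ) ^ (-(δ / 2))) < 1 := by
  have h1 : Filter.Tendsto (fun x : ℝ => x ^ (-(1 - δ))) Filter.atTop (nhds 0) :=
    tendsto_rpow_neg_atTop (by linarith)
  have h2 : Filter.Tendsto (fun x : ℝ => x ^ (-(δ / 2))) Filter.atTop (nhds 0) :=
    tendsto_rpow_neg_atTop (by linarith)
  have h3 : Filter.Tendsto (fun x : ℝ => Real.log x / x ^ (δ / 2)) Filter.atTop (nhds 0) :=
    (isLittleO_log_rpow_atTop (by linarith : 0 < δ / 2)).tendsto_div_nhds_zero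
  have h4 : Filter.Tendsto (fun x : ℝ => A₁ * x ^ (-(1 - δ)) +
      A₂ * (x ^ (-(δ / 2)) + n * (Real.log x / x ^ (δ / 2)))) Filter.atTop
      (nhds (A₁ * 0 + A₂ * (0 + n * 0))) :=
    (h1.const_mul A₁).add ((h2.add (h3.const_mul (n : ℝ))).const_mul A₂)
  have h5 : A₁ * 0 + A₂ * (0 + (n : ℝ) * 0) < 1 := by simp
  have h6 := (h4.comp tendsto_natCast_atTop_atTop).eventually (gt_mem_nhds h5)
  obtain ⟨R₀, hR₀⟩ := Filter.eventually_atTop.mp h6
  refine ⟨R₀ + 1, fun R hR => ?_⟩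
  have h7 := hR₀ R (by omega)
  have hR1 : (0 : ℝ) < R := by exact_mod_cast (by omega : 0 < R)
  simp only [Function.comp_apply] at h7
  have e : (1 + n * Real.log R) * (R : ℝ) ^ (-(δ / 2)) =
      (R : ℝ) ^ (-(δ / 2)) + n * (Real.log R / (R : ℝ) ^ (δ / 2)) := by
    rw [Real.rpow_neg hR1.le]; ring
  rw [e]; exact h7

theorem thm : G_DIFF → G_MSUM → G_DIVB → G_WEYL := by
  intro hDIFF hMSUM hDIVB n σ hn hσ hσ1
  set K : ℕ := 2 ^ (n - 1) with hK
  have hKn : (2 : ℝ) ^ n = 2 * (K : ℝ) := by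
    rw [hK]; push_cast; rw [← pow_succ']; congr 1; omega
  have hKge : n ≤ K := by
    rw [hK]
    have : n - 1 < 2 ^ (n - 1) := Nat.lt_two_pow_self
    omega
  have hK0 : (0 : ℝ) < K := by
    have : 0 < K := by omega
    exact_mod_cast this
  set δ : ℝ := K * σ with hδ
  have hδ0 : 0 < δ := by positivity
  have hδ2 : (2 : ℝ) ^ n * σ = 2 * δ := by rw [hKn, hδ]; ring
  have hδ1 : 2 * δ ≤ 1 := by rw [← hδ2]; exact hσ1
  have hn' : (2 : ℝ) ≤ n := by exact_mod_cast hn
  obtain ⟨C2, hC2⟩ := hMSUM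
  obtain ⟨C1, hC1⟩ := hDIVB (n - 1) (δ / (2 * n)) (by positivity)
  set A₁ : ℝ := 2 ^ (K - n) * (((n - 1 : ℕ) : ℝ) * 2 ^ (n - 2)) with hA₁
  set A₂ : ℝ := 2 ^ (K - n) * (2 ^ (n - 1) * |C1| * (|C2| * (2 * n.factorial + 2))) with hA₂
  obtain ⟨R₀, hR₀⟩ := ev n δ A₁ A₂ hδ0 hδ1
  refine ⟨R₀ + 1, fun R hR P hP u v huv hS => ?_⟩
  have hev := hR₀ R (by omega)
  have hR1 : 1 ≤ R := by omega
  have hR1' : (1 : ℝ) ≤ R := by exact_mod_cast hR1
  have hR0 : (0 : ℝ) < R := by linarith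
  set c := P.coeff n with hc
  set E : ℝ := (n : ℝ) - 2 * δ with hE
  have hT1 : 1 ≤ (R : ℝ) ^ E := Real.one_le_rpow hR1' (by rw [hE]; linarith)
  have hT0 : 0 < (R : ℝ) ^ E := by linarith
  have hN1 : 0 < ⌊(R : ℝ) ^ E⌋₊ := Nat.floor_pos.mpr hT1
  obtain ⟨r, hr1, hr2⟩ := Real.exists_rat_abs_sub_le_and_den_le c hN1
  have hq1 : 1 ≤ r.den := r.pos
  have hq1' : (1 : ℝ) ≤ r.den := by exact_mod_cast hq1
  have hq0 : (0 : ℝ) < r.den := by linarith
  have hqT : (r.den : ℝ) ≤ (R : ℝ) ^ E :=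
    le_trans (by exact_mod_cast hr2) (Nat.floor_le hT0.le)
  have hrr : (r : ℝ) = r.num / r.den := by
    exact_mod_cast (Rat.cast_def (K := ℝ) r)
  have hN2 : (R : ℝ) ^ E < (⌊(R : ℝ) ^ E⌋₊ : ℝ) + 1 := Nat.lt_floor_add_one _
  have hN3 : (r.den : ℝ) ≤ (⌊(R : ℝ) ^ E⌋₊ : ℝ) + 1 := by linarith
  rw [hrr] at hr1
  by_cases hcase : (r.den : ℝ) ≤ (R : ℝ) ^ (2 * δ)
  · refine ⟨r.den, hq1, ?_, r.num, ?_⟩
    · rw [hδ2]; exact hcase
    · rw [hδ2]
      have e1 : (r.den : ℝ) * c - r.num = r.den * (c - r.num / r.den) := by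
        field_simp
      rw [e1, abs_mul, abs_of_pos hq0]
      calc (r.den : ℝ) * |c - r.num / r.den|
          ≤ r.den * (1 / (((⌊(R : ℝ) ^ E⌋₊ : ℝ) + 1) * r.den)) :=
            mul_le_mul_of_nonneg_left hr1 hq0.le
        _ = 1 / ((⌊(R : ℝ) ^ E⌋₊ : ℝ) + 1) := by field_simp
        _ ≤ 1 / (R : ℝ) ^ E := one_div_le_one_div_of_le hT0 hN2.le
        _ = (R : ℝ) ^ (-(n : ℝ) + 2 * δ) := by
          rw [one_div, ← Real.rpow_neg hR0.le, hE]; congr 1; ring
  · exfalso
    push Not at hcase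
    have hcop : IsCoprime r.num (r.den : ℤ) := by
      rw [Int.isCoprime_iff_gcd_eq_one]
      exact r.reduced
    have hsq : |c - r.num / r.den| ≤ 1 / ((r.den : ℕ) : ℝ) ^ 2 := by
      refine hr1.trans (one_div_le_one_div_of_le (by positivity) ?_)
      rw [sq]
      exact mul_le_mul_of_nonneg_right hN3 hq0.le
    have hX1 : 1 ≤ n.factorial * R ^ (n - 1) :=
      Nat.one_le_iff_ne_zero.mpr (Nat.mul_ne_zero (Nat.factorial_ne_zero n)
        (pow_ne_zero _ (by omega)))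
    have hM := hC2 c R r.den (n.factorial * R ^ (n - 1)) r.num hR1' hq1 hX1 hcop hsq
    set M := ∑ z ∈ Finset.Icc 1 (n.factorial * R ^ (n - 1)), mn R (c * z) with hMdef
    have hlR : 0 ≤ Real.log R := Real.log_nonneg hR1'
    have hlQ : 0 ≤ Real.log (r.den : ℝ) := Real.log_nonneg hq1'
    have hM2 : M ≤ |C2| * ((2 * n.factorial + 2) * (1 + n * Real.log R) * (R : ℝ) ^ E) := by
      have hb := mbound n R r.den δ hn hR1' hδ0 hδ1 hq1' hcase hqT
      have hpos : 0 ≤ (((n.factorial * R ^ (n - 1) : ℕ) : ℝ) / r.den + 1) *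
          (R + r.den * (1 + Real.log (r.den : ℝ))) := by positivity
      calc M ≤ C2 * (((n.factorial * R ^ (n - 1) : ℕ) : ℝ) / r.den + 1) *
          (R + r.den * (1 + Real.log (r.den : ℝ))) := hM
        _ = C2 * ((((n.factorial * R ^ (n - 1) : ℕ) : ℝ) / r.den + 1) *
          (R + r.den * (1 + Real.log (r.den : ℝ)))) := by ring
        _ ≤ |C2| * ((((n.factorial * R ^ (n - 1) : ℕ) : ℝ) / r.den + 1) *
          (R + r.den * (1 + Real.log (r.den : ℝ)))) :=
            mul_le_mul_of_nonneg_right (le_abs_self _) hpos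
        _ ≤ _ := by
            apply mul_le_mul_of_nonneg_left _ (abs_nonneg _)
            push_cast
            exact hb
    have hD : ∀ z : ℕ, 1 ≤ z → z ≤ R ^ (n - 1) →
      (((Fintype.piFinset (fun _ : Fin (n - 1) => Finset.Icc 1 z)).filter
        (fun h => ∏ i, h i = z)).card : ℝ) ≤ |C1| * (R : ℝ) ^ (δ / 2) := by
      intro z hz1 hz2
      have hz1' : (1 : ℝ) ≤ z := by exact_mod_cast hz1
      have hz2' : (z : ℝ) ≤ (R : ℝ) ^ (n - 1) := by exact_mod_cast hz2
      calc _ ≤ C1 * (z : ℝ) ^ (δ / (2 * n)) := hC1 z hz1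
        _ ≤ |C1| * (z : ℝ) ^ (δ / (2 * n)) :=
          mul_le_mul_of_nonneg_right (le_abs_self _) (by positivity)
        _ ≤ |C1| * (R : ℝ) ^ (δ / 2) := by
          apply mul_le_mul_of_nonneg_left _ (abs_nonneg _)
          calc (z : ℝ) ^ (δ / (2 * n)) ≤ ((R : ℝ) ^ (n - 1)) ^ (δ / (2 * n)) :=
                Real.rpow_le_rpow (by linarith) hz2' (by positivity)
            _ ≤ ((R : ℝ) ^ n) ^ (δ / (2 * n)) := by
                apply Real.rpow_le_rpow (by positivity) _ (by positivity)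
                exact pow_le_pow_right₀ hR1' (by omega)
            _ = (R : ℝ) ^ (δ / 2) := by
                rw [← Real.rpow_natCast, ← Real.rpow_mul hR0.le]
                congr 1; field_simp
    have hcomb := comb n R hn hR1 c (|C1| * (R : ℝ) ^ (δ / 2)) hD
    have hdiff := hDIFF n R hn hR1 P hP u v huv
    rw [← hc] at hdiff
    set W := ∑ h ∈ Fintype.piFinset (fun _ : Fin (n - 1) => Finset.Ioo (-(R : ℤ)) R),
          mn R (n.factorial * c * ∏ i, (h i : ℝ)) with hW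
    have h1 : ((R : ℝ) ^ (1 - σ)) ^ K ≤ (2 * R : ℝ) ^ (K - n) * W :=
      (pow_le_pow_left₀ (by positivity) hS K).trans hdiff
    have h2 : ((R : ℝ) ^ (1 - σ)) ^ K = (R : ℝ) ^ (K - n) * (R : ℝ) ^ ((n : ℝ) - δ) := by
      rw [← Real.rpow_natCast, ← Real.rpow_mul hR0.le, ← Real.rpow_natCast (R : ℝ) (K - n),
        ← Real.rpow_add hR0]
      congr 1
      rw [Nat.cast_sub hKge, hδ]; ring
    have h3 : (R : ℝ) ^ ((n : ℝ) - δ) ≤ 2 ^ (K - n) * W := by
      rw [h2, mul_pow] at h1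
      have h4 : (0 : ℝ) < (R : ℝ) ^ (K - n) := by positivity
      have h5 : (R : ℝ) ^ (K - n) * (R : ℝ) ^ ((n : ℝ) - δ) ≤
          (R : ℝ) ^ (K - n) * (2 ^ (K - n) * W) := by
        calc _ ≤ 2 ^ (K - n) * (R : ℝ) ^ (K - n) * W := h1
          _ = _ := by ring
      exact le_of_mul_le_mul_left h5 h4
    have h4 : W ≤ ((n - 1 : ℕ) : ℝ) * (2 * R : ℝ) ^ (n - 2) * R +
        2 ^ (n - 1) * (|C1| * (R : ℝ) ^ (δ / 2)) *
          (|C2| * ((2 * n.factorial + 2) * (1 + n * Real.log R) * (R : ℝ) ^ E)) := by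
      refine hcomb.trans ?_
      have : 2 ^ (n - 1) * (|C1| * (R : ℝ) ^ (δ / 2)) * M ≤
          2 ^ (n - 1) * (|C1| * (R : ℝ) ^ (δ / 2)) *
          (|C2| * ((2 * n.factorial + 2) * (1 + n * Real.log R) * (R : ℝ) ^ E)) :=
        mul_le_mul_of_nonneg_left hM2 (by positivity)
      linarith
    have h5 : (R : ℝ) ^ ((n : ℝ) - δ) ≤ 2 ^ (K - n) * (((n - 1 : ℕ) : ℝ) * (2 * R : ℝ) ^ (n - 2) * R +
        2 ^ (n - 1) * (|C1| * (R : ℝ) ^ (δ / 2)) *
          (|C2| * ((2 * n.factorial + 2) * (1 + n * Real.log R) * (R : ℝ) ^ E))) :=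
      h3.trans (mul_le_mul_of_nonneg_left h4 (by positivity))
    have e1 : (2 * R : ℝ) ^ (n - 2) * R = 2 ^ (n - 2) * ((R : ℝ) ^ (-(1 - δ)) *
        (R : ℝ) ^ ((n : ℝ) - δ)) := by
      rw [mul_pow, mul_assoc, ← pow_succ, ← Real.rpow_add hR0, ← Real.rpow_natCast (R : ℝ)]
      congr 2
      have : n - 2 + 1 = n - 1 := by omega
      rw [this, Nat.cast_sub (by omega)]; push_cast; ring
    have e2 : (R : ℝ) ^ (δ / 2) * (R : ℝ) ^ E = (R : ℝ) ^ (-(δ / 2)) *
        (R : ℝ) ^ ((n : ℝ) - δ) := by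
      rw [← Real.rpow_add hR0, ← Real.rpow_add hR0]
      congr 1; rw [hE]; ring
    have e3 : 2 ^ (K - n) * (((n - 1 : ℕ) : ℝ) * (2 * R : ℝ) ^ (n - 2) * R +
        2 ^ (n - 1) * (|C1| * (R : ℝ) ^ (δ / 2)) *
          (|C2| * ((2 * n.factorial + 2) * (1 + n * Real.log R) * (R : ℝ) ^ E))) =
        (A₁ * (R : ℝ) ^ (-(1 - δ)) + A₂ * ((1 + n * Real.log R) * (R : ℝ) ^ (-(δ / 2)))) *
          (R : ℝ) ^ ((n : ℝ) - δ) := by
      calc _ = 2 ^ (K - n) * (((n - 1 : ℕ) : ℝ) * ((2 * R : ℝ) ^ (n - 2) * R) +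
        2 ^ (n - 1) * |C1| * (|C2| * ((2 * n.factorial + 2) * (1 + n * Real.log R) *
          ((R : ℝ) ^ (δ / 2) * (R : ℝ) ^ E)))) := by ring
        _ = _ := by rw [e1, e2, hA₁, hA₂]; ring
    rw [e3] at h5
    have h6 : 0 < (R : ℝ) ^ ((n : ℝ) - δ) := Real.rpow_pos_of_pos hR0 _
    have h7 := mul_lt_mul_of_pos_right hev h6
    rw [one_mul] at h7
    linarith

end Pool.Agent.Helper42.KS.PkWEYL
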